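import Pool.Agent.N838.CR.Stm

set_option autoImplicit false

namespace N271.CR

open Matrix Polynomial N838.CR

theorem t_ROOTS : ROOTS := by
  intro n H hH z u
  have key : z • (1 : Matrix (Fin n) (Fin n) ℂ) + u • H =
      (hH.eigenvectorUnitary : Matrix (Fin n) (Fin n) ℂ) *
        (Matrix.diagonal (fun i => z + u * ((hH.eigenvalues i : ℝ) : ℂ))) *
        star (hH.eigenvectorUnitary : Matrix (Fin n) (Fin n) ℂ) := by
    have hD : (Matrix.diagonal (fun i => z + u * ((hH.eigenvalues i : ℝ) : ℂ)) :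
        Matrix (Fin n) (Fin n) ℂ) =
        z • (1 : Matrix (Fin n) (Fin n) ℂ) +
          u • Matrix.diagonal (RCLike.ofReal ∘ hH.eigenvalues : Fin n → ℂ) := by
      ext i j
      by_cases hij : i = j
      · subst hij
        simp
      · simp [Matrix.diagonal_apply_ne _ hij, Matrix.one_apply_ne hij]
    have hU : (hH.eigenvectorUnitary : Matrix (Fin n) (Fin n) ℂ) *
        star (hH.eigenvectorUnitary : Matrix (Fin n) (Fin n) ℂ) = 1 :=
      Unitary.mul_star_self_of_mem hH.eigenvectorUnitary.2
    have hS := hH.spectral_theorem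
    rw [Unitary.conjStarAlgAut_apply] at hS
    rw [hD, Matrix.mul_add, Matrix.add_mul, Matrix.mul_smul, Matrix.mul_smul, Matrix.mul_one,
      Matrix.smul_mul, Matrix.smul_mul, hU, ← hS]
  rw [key, Matrix.charpoly_mul_comm, ← mul_assoc]
  have hU' : star (hH.eigenvectorUnitary : Matrix (Fin n) (Fin n) ℂ) *
      (hH.eigenvectorUnitary : Matrix (Fin n) (Fin n) ℂ) = 1 :=
    Unitary.star_mul_self_of_mem hH.eigenvectorUnitary.2
  rw [hU', one_mul, Matrix.charpoly_diagonal, Polynomial.roots_prod]
  · simp only [roots_X_sub_C, Multiset.bind_singleton]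
  · exact Finset.prod_ne_zero_iff.mpr (fun i _ => X_sub_C_ne_zero _)

end N271.CR
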